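import Pool.Agent.ISB.StmtsA

set_option autoImplicit false

namespace Pool.Agent.ISB.H77

open Pool.Agent.ISB

open scoped Classical commutatorElement

theorem idl (cal : CalStmt) : IdlStmt := by
  intro F L _ _ _ A hA
  obtain ⟨mono, comm, -, jac, -, -, -, -⟩ := cal F L
  have hAA : br A A ≤ A := by
    unfold br
    rw [Submodule.span_le]
    rintro z ⟨a, ha, b, hb, rfl⟩
    exact hA a ha b hb
  have h2 : ∀ s, br (dr A s) A ≤ dr A s := by
    intro s
    induction s with
    | zero => exact hAA
    | succ s ih =>
      change br (br (dr A s) (dr A s)) A ≤ br (dr A s) (dr A s)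
      rw [comm]
      refine (jac A (dr A s) (dr A s)).trans ?_
      have h : br A (dr A s) ≤ dr A s := by
        rw [comm]
        exact ih
      exact sup_le (mono _ _ _ _ h le_rfl) (mono _ _ _ _ h le_rfl)
  have h1 : ∀ s, dr A (s + 1) ≤ dr A s := by
    intro s
    induction s with
    | zero => exact hAA
    | succ s ih => exact mono _ _ _ _ ih ih
  refine ⟨?_, h2, ?_, ?_⟩
  · intro s s' hs
    exact antitone_nat_of_succ_le h1 hs
  · intro s j
    induction j with
    | zero => exact h2 s
    | succ j ih =>
      change br (br (itr (dr A s) (dr A s) j) (dr A s)) A ≤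
        br (itr (dr A s) (dr A s) j) (dr A s)
      rw [comm]
      refine (jac A (itr (dr A s) (dr A s) j) (dr A s)).trans (sup_le ?_ ?_)
      · refine mono _ _ _ _ ?_ le_rfl
        rw [comm]
        exact ih
      · rw [comm (itr (dr A s) (dr A s) j) (dr A s)]
        refine mono _ _ _ _ ?_ le_rfl
        rw [comm]
        exact h2 s
  · intro σ hσ hσA s
    induction s with
    | zero => exact hσA
    | succ s ih =>
      have h : dr A (s + 1) ≤ (dr A (s + 1)).comap σ := by
        change Submodule.span F _ ≤ _
        rw [Submodule.span_le]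
        rintro z ⟨a, ha, b, hb, rfl⟩
        change σ ⁅a, b⁆ ∈ dr A (s + 1)
        rw [hσ]
        exact Submodule.subset_span ⟨_, ih a ha, _, ih b hb, rfl⟩
      exact fun a ha => h ha

end Pool.Agent.ISB.H77
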